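import Pool.Agent.H27.Iso11

open MeasureTheory Pool.Agent.H27

namespace Pool.Agent.Results.MP_7eb226_an.ConstSign

/-- On a bounded open set, only finitely many `q`-eigenvalues below any bound have an
eigenfunction of constant sign or lie below `2^(1-2/q) λ₁`. -/
theorem result (N : ℕ) (hN : 2 ≤ N) (q : ℝ) (hq : 2 < q) (hqN : ((N : ℝ) - 2) * q < 2 * N)
    (Ω : Set (EuclideanSpace ℝ (Fin N))) (_hΩ : IsOpen Ω) (hb : Bornology.IsBounded Ω) (M : ℝ) :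
    {l : ℝ | l ≤ M ∧ ∃ u, QSpec.IsEig Ω q l u ∧
      ((∀ᵐ x, 0 ≤ u x) ∨ (∀ᵐ x, u x ≤ 0) ∨ l < 2 ^ (1 - 2 / q) * QSpec.lam1 Ω q)}.Finite := by
  obtain ⟨D, hD⟩ := Iso.real_bdd hN hq hqN hb
  have e : QSpec.lam1 Ω q = D.lam := hD.lam_eq (Or.inr rfl)
  refine (D.finite_pos M).subset ?_
  rintro l ⟨h1, u, h2, h3⟩
  obtain ⟨k, hk, c, c0, hc⟩ := hD.isEig h2
  refine ⟨h1, ?_⟩
  rcases h3 with h3 | h3 | h3
  · refine ⟨k, hk.pos ?_⟩
    filter_upwards [hc, h3] with x a1 a2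
    rw [a1]; positivity
  · refine ⟨-k, hk.neg.pos ?_⟩
    filter_upwards [hc, h3, D.j_neg k] with x a1 a2 a3
    rw [a3, a1]; nlinarith
  · exact hk.sign (e ▸ h3)

end Pool.Agent.Results.MP_7eb226_an.ConstSign
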